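import Pool.Agent.Helper28_LE.GevTri

/-!
# GEV: the good event has probability near one
-/

set_option autoImplicit false

open MeasureTheory ProbabilityTheory Function Filter

open scoped ENNReal BigOperators Topology

noncomputable section

namespace Pool.Agent.LE.H28A

open Pool.Agent.Anderson Pool.Agent.Loc Pool.Agent.Mob Pool.Agent.Helper54.Bal
  Pool.Agent.Mob.H75

theorem integrable_of_sq {Ω : Type} [MeasurableSpace Ω] {P : Measure Ω} [IsProbabilityMeasure P]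
    {f : Ω → ℝ} (hf : Measurable f) (h : Integrable (fun ω => f ω ^ 2) P) : Integrable f P := by
  refine ((integrable_const (1 : ℝ)).add h).mono' hf.aestronglyMeasurable
    (Eventually.of_forall fun ω => ?_)
  simp only [Pi.add_apply, Real.norm_eq_abs]
  nlinarith [sq_abs (f ω), sq_nonneg (|f ω| - 1), abs_nonneg (f ω)]

/-- Markov -/
theorem markov {Ω : Type} [MeasurableSpace Ω] {P : Measure Ω} [IsProbabilityMeasure P]
    {f : Ω → ℝ} (hf : Integrable f P) {t b : ℝ} (ht : 0 < t) (hb : ∫ ω, |f ω| ∂P ≤ b) :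
    P {ω | t < |f ω|} ≤ ENNReal.ofReal (b / t) := by
  have h1 := mul_meas_ge_le_integral_of_nonneg (μ := P) (f := fun ω => |f ω|)
    (Eventually.of_forall fun ω => abs_nonneg _) hf.abs t
  have h2 : P.real {ω | t ≤ |f ω|} ≤ b / t := by
    rw [le_div_iff₀ ht]
    linarith
  have h3 : P {ω | t ≤ |f ω|} ≤ ENNReal.ofReal (b / t) := by
    rw [← ofReal_measureReal (measure_ne_top _ _)]
    exact ENNReal.ofReal_le_ofReal h2
  exact (measure_mono fun ω (h : t < |f ω|) => h.le).trans h3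

theorem sm_mem {d : ℕ} (a : Site d) (l n : ℕ) {k : Site d} (hk : k ∈ box (0 : Site d) n) :
    a + sm l k ∈ box a (l * n) := by
  rw [mem_box]
  exact sd_sm a l n hk

/-- clause 5 from `PigStmt` -/
theorem gev_shift (pig : PigStmt) (fmn : FmnStmt) (d : ℕ) (σ E κ₃ p : ℝ) (hd : 1 ≤ d)
    (hσ : σ ≠ 0) (hκ : 0 < κ₃) (hp : 0 < p) (Q : ℕ) (hQ : 1 ≤ Q) (l : ℕ) :
    ∃ (ℓ N : ℕ) (a : Site d), l ≤ ℓ ∧ 1 ≤ ℓ ∧ box a (12 * (Q * ℓ)) ⊆ box 0 N ∧
      PP d (gl σ) {V | ¬ ∀ k ∈ box (0 : Site d) (8 * Q), ∀ y ∈ box (0 : Site d) Q,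
        |DL (box 0 N) E V a (a + sm ℓ y) -
          DL (box 0 N) E V (a + sm ℓ k) (a + sm ℓ k + sm ℓ y)| ≤ κ₃ * (Q * ℓ)} ≤
        ENNReal.ofReal p := by
  classical
  obtain ⟨C, hC, hfam⟩ := fmn d σ E hd hσ
  set M : ℝ := ((2 * (8 * Q) + 1 : ℕ) : ℝ) ^ d * ((2 * Q + 1 : ℕ) : ℝ) ^ d with hM
  have hMpos : 0 < M := by positivity
  have hQpos : (0 : ℝ) < Q := by exact_mod_cast hQ
  set ε : ℝ := p * (κ₃ * Q) / M with hε
  have hεpos : 0 < ε := by positivity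
  obtain ⟨J, l₁, hl₁, hpig⟩ := pig d (8 * Q) (12 * Q) C ε hC hεpos (by omega)
  obtain ⟨N, hN⟩ := hpig (max l l₁) (le_max_right _ _)
  obtain ⟨j, -, a, hbox, hshift⟩ := hN N le_rfl (Site d → ℝ) (PP d (gl σ))
    (DL (box 0 N) E) (hfam N).1
  set ℓ : ℕ := 2 ^ j * max l l₁ with hℓ
  have hj1 : 1 ≤ 2 ^ j := Nat.one_le_two_pow
  have hlℓ : max l l₁ ≤ ℓ := by nlinarith [Nat.zero_le (max l l₁)]
  have hℓ1 : 1 ≤ ℓ := hl₁.trans ((le_max_right _ _).trans hlℓ)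
  have hℓpos : (0 : ℝ) < ℓ := by exact_mod_cast hℓ1
  have hbox' : box a (12 * (Q * ℓ)) ⊆ box (0 : Site d) N := by
    have e : 12 * (Q * ℓ) = 12 * Q * ℓ := by ring
    rw [e]
    exact hbox
  refine ⟨ℓ, N, a, (le_max_left _ _).trans hlℓ, hℓ1, hbox', ?_⟩
  set t : ℝ := κ₃ * (Q * ℓ) with ht
  have htpos : 0 < t := by positivity
  have hsub : {V | ¬ ∀ k ∈ box (0 : Site d) (8 * Q), ∀ y ∈ box (0 : Site d) Q,
        |DL (box 0 N) E V a (a + sm ℓ y) -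
          DL (box 0 N) E V (a + sm ℓ k) (a + sm ℓ k + sm ℓ y)| ≤ t} ⊆
      ⋃ q ∈ box (0 : Site d) (8 * Q) ×ˢ box (0 : Site d) Q,
        {V | t < |DL (box 0 N) E V a (a + sm ℓ q.2) -
          DL (box 0 N) E V (a + sm ℓ q.1) (a + sm ℓ q.1 + sm ℓ q.2)|} := by
    intro V hV
    simp only [Set.mem_ofPred_eq, not_forall, not_le] at hV
    obtain ⟨k, hk, y, hy, h⟩ := hV
    simp only [Set.mem_iUnion]
    exact ⟨(k, y), Finset.mem_product.2 ⟨hk, hy⟩, h⟩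
  refine (measure_mono hsub).trans ((measure_biUnion_finset_le _ _).trans
    ((Finset.sum_le_sum (g := fun _ => ENNReal.ofReal (ε / (κ₃ * Q))) fun q hq => ?_).trans ?_))
  · rw [Finset.mem_product] at hq
    have m1 : a ∈ box (0 : Site d) N := hbox' (by rw [mem_box, sd_self]; omega)
    have m2 : a + sm ℓ q.2 ∈ box (0 : Site d) N :=
      hbox' (box_mono a (by nlinarith) (sm_mem a ℓ Q hq.2))
    have m3 : a + sm ℓ q.1 ∈ box (0 : Site d) N :=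
      hbox' (box_mono a (by nlinarith) (sm_mem a ℓ (8 * Q) hq.1))
    have m4 : a + sm ℓ q.1 + sm ℓ q.2 ∈ box (0 : Site d) N := by
      apply hbox'
      rw [mem_box]
      have h1 := sd_sm a ℓ (8 * Q) hq.1
      have h2 := sd_sm (a + sm ℓ q.1) ℓ Q hq.2
      have h3 := sd_triangle a (a + sm ℓ q.1) (a + sm ℓ q.1 + sm ℓ q.2)
      nlinarith
    have i1 : Integrable (fun V => DL (box 0 N) E V a (a + sm ℓ q.2)) (PP d (gl σ)) :=
      integrable_of_sq ((hfam N).1.meas _ _) ((hfam N).1.int _ m1 _ m2)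
    have i2 : Integrable (fun V => DL (box 0 N) E V (a + sm ℓ q.1)
        (a + sm ℓ q.1 + sm ℓ q.2)) (PP d (gl σ)) :=
      integrable_of_sq ((hfam N).1.meas _ _) ((hfam N).1.int _ m3 _ m4)
    have hk := mem_box.1 hq.1
    have hy := mem_box.1 hq.2
    have h := markov (i1.sub i2) (t := t) (b := ε * ℓ) htpos (hshift q.2 q.1 (by omega) hk)
    refine h.trans (le_of_eq ?_)
    congr 1
    rw [ht]
    field_simp
  · rw [Finset.sum_const, nsmul_eq_mul, ← ENNReal.ofReal_natCast,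
      ← ENNReal.ofReal_mul (by positivity)]
    apply ENNReal.ofReal_le_ofReal
    rw [Finset.card_product, card_box, card_box]
    have e : (((2 * (8 * Q) + 1) ^ d * (2 * Q + 1) ^ d : ℕ) : ℝ) = M := by
      rw [hM]; push_cast; ring
    rw [e, hε]
    apply le_of_eq
    field_simp

/-- nonvanishing entries -/
theorem gev_ne (fmn : FmnStmt) (d : ℕ) (σ E : ℝ) (hd : 1 ≤ d) (hσ : σ ≠ 0) (N : ℕ)
    (B : Finset (Site d)) (hB : B ⊆ box 0 N) :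
    PP d (gl σ) {V | ¬ ∀ x ∈ B, ∀ y ∈ B, gr V (box 0 N) E x y ≠ 0} = 0 := by
  classical
  obtain ⟨C, hC, hfam⟩ := fmn d σ E hd hσ
  have hsub : {V | ¬ ∀ x ∈ B, ∀ y ∈ B, gr V (box 0 N) E x y ≠ 0} ⊆
      ⋃ q ∈ B ×ˢ B, {V | gr V (box 0 N) E q.1 q.2 = 0} := by
    intro V hV
    simp only [Set.mem_ofPred_eq, not_forall, not_not] at hV
    obtain ⟨x, hx, y, hy, h⟩ := hV
    simp only [Set.mem_iUnion]
    exact ⟨(x, y), Finset.mem_product.2 ⟨hx, hy⟩, h⟩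
  refine le_antisymm ((measure_mono hsub).trans ((measure_biUnion_finset_le _ _).trans ?_)) bot_le
  rw [Finset.sum_eq_zero]
  intro q hq
  rw [Finset.mem_product] at hq
  exact (hfam N).2 _ (hB hq.1) _ (hB hq.2)

/-- GEV -/
theorem gev (pig : PigStmt) (fmn : FmnStmt)
    (one : ∀ (d : ℕ) (σ E : ℝ), 1 ≤ d → σ ≠ 0 → ∃ C, OneTail d (gl σ) E C)
    (chn : ∀ (d : ℕ) (σ E : ℝ), 1 ≤ d → σ ≠ 0 → ∃ C, ChnTail d (gl σ) E C) : GevStmt := by
  classical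
  intro d σ E κ₃ p hd hσ hκ hp
  have hp8 : 0 < p / 8 := by positivity
  obtain ⟨Q, hQ2, hQc⟩ := gev_chain d σ E κ₃ (p / 8) hd hκ hp8 (chn d σ E hd hσ)
  have hν := bddDens_gl hσ
  obtain ⟨L1, hL1, h1⟩ := gev_tri d σ E κ₃ (p / 8) hκ hp8 (one d σ E hd hσ)
  obtain ⟨L2, hL2, h2⟩ := gev_up d σ E κ₃ (p / 8) _ hκ hp8 hν
  obtain ⟨L3, hL3, h3⟩ := gev_small d σ E κ₃ (p / 8) _ hκ hp8 hν
  refine ⟨Q, by omega, fun l => ?_⟩
  obtain ⟨ℓ, N, a, hl, hℓ1, hbox, h5⟩ := gev_shift pig fmn d σ E κ₃ (p / 8) hd hσ hκ hp8 Q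
    (by omega) (max l (max L1 (max L2 L3)))
  have hℓQ : ℓ ≤ Q * ℓ := by nlinarith
  have hl' : l ≤ ℓ := (le_max_left _ _).trans hl
  have hm : max L1 (max L2 L3) ≤ ℓ := (le_max_right _ _).trans hl
  have hm1 : L1 ≤ Q * ℓ := ((le_max_left _ _).trans hm).trans hℓQ
  have hm2 : L2 ≤ Q * ℓ := ((le_max_left _ _).trans ((le_max_right _ _).trans hm)).trans hℓQ
  have hm3 : L3 ≤ Q * ℓ := ((le_max_right _ _).trans ((le_max_right _ _).trans hm)).trans hℓQ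
  refine ⟨ℓ, N, a, hl', hℓ1, hbox, ?_⟩
  have hsub : {V | ¬ GoodEv V N Q ℓ a E κ₃} ⊆
      {V | ¬ (RM V (box 0 N) E).det ≠ 0} ∪
      ({V | ¬ ∀ x ∈ box a (12 * (Q * ℓ)), ∀ y ∈ box a (12 * (Q * ℓ)),
        gr V (box 0 N) E x y ≠ 0} ∪
      ({V | ¬ ∀ x ∈ box a (12 * (Q * ℓ)), ∀ y ∈ box a (12 * (Q * ℓ)),
          |gr V (box 0 N) E x y| ≤ Real.exp (κ₃ * (Q * ℓ))} ∪
      ({V | (∀ x ∈ box a (12 * (Q * ℓ)), ∀ y ∈ box a (12 * (Q * ℓ)),
          gr V (box 0 N) E x y ≠ 0) ∧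
        ¬ ∀ x ∈ box a (12 * (Q * ℓ)), ∀ u ∈ box a (12 * (Q * ℓ)), ∀ y ∈ box a (12 * (Q * ℓ)),
          DL (box 0 N) E V x y ≤ DL (box 0 N) E V x u + DL (box 0 N) E V u y + κ₃ * (Q * ℓ)} ∪
      ({V | ¬ ∀ k ∈ box (0 : Site d) (10 * Q), ∀ y ∈ box (a + sm ℓ k) (3 * ℓ),
        DL (box 0 N) E V (a + sm ℓ k) y ≤ κ₃ * (Q * ℓ)} ∪
      ({V | ¬ ∀ k ∈ box (0 : Site d) (8 * Q), ∀ y ∈ box (0 : Site d) Q,
        |DL (box 0 N) E V a (a + sm ℓ y) -
          DL (box 0 N) E V (a + sm ℓ k) (a + sm ℓ k + sm ℓ y)| ≤ κ₃ * (Q * ℓ)} ∪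
      {V | ¬ ∀ s ∈ box a (8 * (Q * ℓ)), (RM V (box s (Q * ℓ)) E).det ≠ 0 ∧
        ∀ x y, |gr V (box s (Q * ℓ)) E x y| ≤ Real.exp (κ₃ * (Q * ℓ))}))))) := by
    intro V hV
    by_contra hc
    simp only [Set.mem_union, Set.mem_ofPred_eq, not_or, not_not, not_and] at hc
    obtain ⟨c1, c2, c3, c4, c5, c6, c7⟩ := hc
    apply hV
    refine ⟨c1, fun x hx y hy => ⟨c2 x hx y hy, c3 x hx y hy⟩, c4 c2, c5, c6, c7⟩
  refine (measure_mono hsub).trans ?_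
  refine (measure_union_le _ _).trans ?_
  rw [gev_det d σ E _ hν (box 0 N), zero_add]
  refine (measure_union_le _ _).trans ?_
  rw [gev_ne fmn d σ E hd hσ N _ hbox, zero_add]
  refine (measure_union_le _ _).trans ?_
  refine (add_le_add (h2 Q ℓ hm2 N a) ((measure_union_le _ _).trans
    (add_le_add (h1 Q ℓ hm1 N a hbox) ((measure_union_le _ _).trans
      (add_le_add (hQc Q le_rfl ℓ N a hℓ1 hbox) ((measure_union_le _ _).trans
        (add_le_add h5 (h3 Q ℓ hm3 a)))))))).trans ?_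
  rw [← ENNReal.ofReal_add hp8.le hp8.le, ← ENNReal.ofReal_add hp8.le (by positivity),
    ← ENNReal.ofReal_add hp8.le (by positivity), ← ENNReal.ofReal_add hp8.le (by positivity)]
  apply ENNReal.ofReal_le_ofReal
  linarith

end Pool.Agent.LE.H28A
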