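import Pool.Agent.LE.StmtsA

/-!
# GEV, part 4: chaining from the sites `a + ℓ k`
-/

set_option autoImplicit false

open MeasureTheory ProbabilityTheory Function

open scoped ENNReal BigOperators

noncomputable section

namespace Pool.Agent.LE.H28A

open Pool.Agent.Anderson Pool.Agent.Loc Pool.Agent.Mob Pool.Agent.Helper54.Bal
  Pool.Agent.Mob.H75

theorem sd_sm {d : ℕ} (a : Site d) (l n : ℕ) {k : Site d} (hk : k ∈ box (0 : Site d) n) :
    sd a (a + sm l k) ≤ l * n := by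
  rw [mem_box, sd_le_iff] at hk
  rw [sd_le_iff]
  intro i
  have h := hk i
  have e : a i - (a + sm l k) i = l * ((0 : Site d) i - k i) := by
    simp only [Pi.add_apply, Pi.zero_apply, sm]
    ring
  rw [e, abs_mul]
  have : |((l : ℕ) : ℤ)| = l := abs_of_nonneg (by positivity)
  rw [this]
  push_cast
  exact mul_le_mul_of_nonneg_left h (by positivity)

/-- the bad event of one centre -/
theorem lt_of_DL {d : ℕ} {Λ : Finset (Site d)} {E t : ℝ} {V : Site d → ℝ} {x y : Site d}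
    (ht : 0 ≤ t) (h : t < DL Λ E V x y) : |gr V Λ E x y| < Real.exp (-t) := by
  unfold DL at h
  by_cases h0 : |gr V Λ E x y| = 0
  · rw [h0]
    exact Real.exp_pos _
  · have hp : 0 < |gr V Λ E x y| := lt_of_le_of_ne (abs_nonneg _) (Ne.symm h0)
    rw [← Real.log_lt_log_iff hp (Real.exp_pos _), Real.log_exp]
    linarith

theorem gev_chain (d : ℕ) (σ E κ₃ p : ℝ) (hd : 1 ≤ d) (hκ : 0 < κ₃) (hp : 0 < p)
    [IsProbabilityMeasure (gl σ)]
    (hchn : ∃ C, ChnTail d (gl σ) E C) : ∃ Q₀ : ℕ, 2 ≤ Q₀ ∧ ∀ Q : ℕ, Q₀ ≤ Q → ∀ (ℓ N : ℕ)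
    (a : Site d), 1 ≤ ℓ → box a (12 * (Q * ℓ)) ⊆ box 0 N →
      PP d (gl σ) {V | ¬ ∀ k ∈ box (0 : Site d) (10 * Q), ∀ y ∈ box (a + sm ℓ k) (3 * ℓ),
        DL (box 0 N) E V (a + sm ℓ k) y ≤ κ₃ * (Q * ℓ)} ≤ ENNReal.ofReal p := by
  classical
  obtain ⟨C, hC⟩ := hchn
  set K : ℝ := |C| * 21 ^ d * (3 / κ₃) ^ (4 * d) with hK
  have hK0 : 0 ≤ K := by positivity
  obtain ⟨Q₁, hQ₁⟩ := exists_nat_gt (K / p)
  refine ⟨max 2 Q₁, le_max_left _ _, fun Q hQ ℓ N a hℓ hbox => ?_⟩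
  have hQ2 : 2 ≤ Q := (le_max_left _ _).trans hQ
  have hQ1 : (Q₁ : ℝ) ≤ Q := by exact_mod_cast (le_max_right 2 Q₁).trans hQ
  have hQpos : (0 : ℝ) < Q := by exact_mod_cast (by omega : 0 < Q)
  have hℓpos : (0 : ℝ) < ℓ := by exact_mod_cast hℓ
  set t : ℝ := κ₃ * (Q * ℓ) with ht
  have htpos : 0 < t := by positivity
  -- one centre
  have one : ∀ k ∈ box (0 : Site d) (10 * Q),
      PP d (gl σ) {V | ∃ s ∈ box (a + sm ℓ k) (3 * ℓ),
        |gr V (box 0 N) E (a + sm ℓ k) s| < Real.exp (-t)} ≤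
        ENNReal.ofReal (|C| * (3 / (κ₃ * Q)) ^ (4 * d)) := by
    intro k hk
    have hsub : box (a + sm ℓ k) (3 * ℓ) ⊆ box (0 : Site d) N := by
      refine Finset.Subset.trans (fun y hy => ?_) hbox
      rw [mem_box] at hy ⊢
      have h1 := sd_sm a ℓ (10 * Q) hk
      have h2 := sd_triangle a (a + sm ℓ k) y
      have h3 : 3 * ℓ ≤ 2 * (Q * ℓ) := by nlinarith
      have h4 : ℓ * (10 * Q) = 10 * (Q * ℓ) := by ring
      omega
    refine (PP_le_PL (Λ := box 0 N) ?_).trans ((hC N (3 * ℓ) (a + sm ℓ k) t (by omega) hsub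
      htpos).trans ?_)
    · intro V V' hV
      simp only [Set.mem_setOf_eq]
      constructor
      · rintro ⟨s, hs, h⟩
        refine ⟨s, hs, ?_⟩
        rwa [← gr_congr hV]
      · rintro ⟨s, hs, h⟩
        refine ⟨s, hs, ?_⟩
        rwa [gr_congr hV]
    · apply ENNReal.ofReal_le_ofReal
      have e : (((3 * ℓ : ℕ) : ℝ) / t) = 3 / (κ₃ * Q) := by
        rw [ht]
        push_cast
        field_simp
      rw [e]
      exact mul_le_mul_of_nonneg_right (le_abs_self C) (by positivity)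
  have hsub : {V | ¬ ∀ k ∈ box (0 : Site d) (10 * Q), ∀ y ∈ box (a + sm ℓ k) (3 * ℓ),
      DL (box 0 N) E V (a + sm ℓ k) y ≤ t} ⊆
      ⋃ k ∈ box (0 : Site d) (10 * Q), {V | ∃ s ∈ box (a + sm ℓ k) (3 * ℓ),
        |gr V (box 0 N) E (a + sm ℓ k) s| < Real.exp (-t)} := by
    intro V hV
    simp only [Set.mem_setOf_eq, not_forall, not_le] at hV
    obtain ⟨k, hk, y, hy, h⟩ := hV
    simp only [Set.mem_iUnion]
    exact ⟨k, hk, y, hy, lt_of_DL htpos.le h⟩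
  refine (measure_mono hsub).trans ((measure_biUnion_finset_le _ _).trans
    ((Finset.sum_le_sum one).trans ?_))
  rw [Finset.sum_const, card_box, nsmul_eq_mul, ← ENNReal.ofReal_natCast,
    ← ENNReal.ofReal_mul (by positivity)]
  apply ENNReal.ofReal_le_ofReal
  have h1 : (((2 * (10 * Q) + 1) ^ d : ℕ) : ℝ) ≤ 21 ^ d * (Q : ℝ) ^ d := by
    push_cast
    rw [← mul_pow]
    apply pow_le_pow_left₀ (by positivity)
    have : (1 : ℝ) ≤ Q := by exact_mod_cast (by omega : 1 ≤ Q)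
    linarith
  have h2 : (3 / (κ₃ * (Q : ℝ))) ^ (4 * d) = (3 / κ₃) ^ (4 * d) * (1 / (Q : ℝ)) ^ (4 * d) := by
    rw [← mul_pow]
    congr 1
    field_simp
  have h3 : (Q : ℝ) ^ d * (1 / (Q : ℝ)) ^ (4 * d) ≤ 1 / Q := by
    have e : (Q : ℝ) ^ d * (1 / (Q : ℝ)) ^ (4 * d) = (1 / (Q : ℝ)) ^ (3 * d) := by
      have : 4 * d = d + 3 * d := by ring
      rw [this, pow_add, ← mul_assoc, ← mul_pow]
      have : (Q : ℝ) * (1 / Q) = 1 := by field_simp
      rw [this, one_pow, one_mul]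
    rw [e]
    have hle : 1 / (Q : ℝ) ≤ 1 := by
      rw [div_le_one hQpos]
      exact_mod_cast (by omega : 1 ≤ Q)
    calc (1 / (Q : ℝ)) ^ (3 * d) ≤ (1 / (Q : ℝ)) ^ 1 :=
          pow_le_pow_of_le_one (by positivity) hle (by omega)
      _ = 1 / Q := pow_one _
  calc (((2 * (10 * Q) + 1) ^ d : ℕ) : ℝ) * (|C| * (3 / (κ₃ * (Q : ℝ))) ^ (4 * d))
      ≤ (21 ^ d * (Q : ℝ) ^ d) * (|C| * (3 / (κ₃ * (Q : ℝ))) ^ (4 * d)) :=
        mul_le_mul_of_nonneg_right h1 (by positivity)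
    _ = K * ((Q : ℝ) ^ d * (1 / (Q : ℝ)) ^ (4 * d)) := by rw [h2, hK]; ring
    _ ≤ K * (1 / Q) := mul_le_mul_of_nonneg_left h3 hK0
    _ ≤ p := by
        rw [mul_one_div, div_le_iff₀ hQpos]
        rw [div_lt_iff₀ hp] at hQ₁
        nlinarith

end Pool.Agent.LE.H28A
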