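import Pool.Agent.Helper28_LE.GevChain

/-!
# GEV, parts 1, 2, 3, 6: triples, moduli and determinants
-/

set_option autoImplicit false

open MeasureTheory ProbabilityTheory Function Filter

open scoped ENNReal BigOperators Topology

noncomputable section

namespace Pool.Agent.LE.H28A

open Pool.Agent.Anderson Pool.Agent.Loc Pool.Agent.Mob Pool.Agent.Helper54.Bal
  Pool.Agent.Mob.H75

/-- exponential against polynomial -/
theorem poly_exp (A c p : ℝ) (k : ℕ) (hc : 0 < c) (hp : 0 < p) : ∃ L₀ : ℕ, 1 ≤ L₀ ∧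
    ∀ L : ℕ, L₀ ≤ L → |A| * (25 * (L : ℝ)) ^ k * Real.exp (-(c * L)) ≤ p := by
  have h := Real.tendsto_pow_mul_exp_neg_atTop_nhds_zero k
  have h2 : Tendsto (fun L : ℕ => c * (L : ℝ)) atTop atTop :=
    Tendsto.const_mul_atTop hc tendsto_natCast_atTop_atTop
  have h3 := h.comp h2
  have h4 : Tendsto (fun L : ℕ => |A| * (25 / c) ^ k *
      ((c * (L : ℝ)) ^ k * Real.exp (-(c * L)))) atTop (𝓝 (|A| * (25 / c) ^ k * 0)) :=
    h3.const_mul _
  rw [mul_zero] at h4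
  have h5 := (h4.eventually (ge_mem_nhds hp)).and (eventually_ge_atTop 1)
  obtain ⟨L₀, hL₀⟩ := eventually_atTop.1 h5
  refine ⟨max 1 L₀, le_max_left _ _, fun L hL => ?_⟩
  have h6 := (hL₀ L ((le_max_right _ _).trans hL)).1
  have e : |A| * (25 / c) ^ k * ((c * (L : ℝ)) ^ k * Real.exp (-(c * L))) =
      |A| * (25 * (L : ℝ)) ^ k * Real.exp (-(c * L)) := by
    have : (25 * (L : ℝ)) ^ k = (25 / c) ^ k * (c * L) ^ k := by
      rw [← mul_pow]
      congr 1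
      field_simp
    rw [this]
    ring
  rw [e] at h6
  exact h6

theorem card_box_le {d : ℕ} (a : Site d) {n : ℕ} (hn : 1 ≤ n) :
    (((box a (12 * n)).card : ℕ) : ℝ) ≤ (25 * (n : ℝ)) ^ d := by
  rw [card_box]
  push_cast
  apply pow_le_pow_left₀ (by positivity)
  have : (1 : ℝ) ≤ n := by exact_mod_cast hn
  linarith

/-- clause 3, on the event where no entry vanishes -/
theorem gev_tri (d : ℕ) (σ E κ₃ p : ℝ) (hκ : 0 < κ₃) (hp : 0 < p)
    (hone : ∃ C, OneTail d (gl σ) E C) [IsProbabilityMeasure (gl σ)] :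
    ∃ L₀ : ℕ, 1 ≤ L₀ ∧ ∀ Q ℓ : ℕ, L₀ ≤ Q * ℓ → ∀ (N : ℕ) (a : Site d),
      box a (12 * (Q * ℓ)) ⊆ box 0 N →
      PP d (gl σ) {V | (∀ x ∈ box a (12 * (Q * ℓ)), ∀ y ∈ box a (12 * (Q * ℓ)),
          gr V (box 0 N) E x y ≠ 0) ∧
        ¬ ∀ x ∈ box a (12 * (Q * ℓ)), ∀ u ∈ box a (12 * (Q * ℓ)), ∀ y ∈ box a (12 * (Q * ℓ)),
          DL (box 0 N) E V x y ≤ DL (box 0 N) E V x u + DL (box 0 N) E V u y + κ₃ * (Q * ℓ)} ≤
        ENNReal.ofReal p := by
  classical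
  obtain ⟨C, hC⟩ := hone
  obtain ⟨L₀, h1, hL₀⟩ := poly_exp C (κ₃ / 3) p (3 * d) (by positivity) hp
  refine ⟨L₀, h1, fun Q ℓ hQ N a hbox => ?_⟩
  have hn : 1 ≤ Q * ℓ := h1.trans hQ
  set B := box a (12 * (Q * ℓ)) with hB
  set t : ℝ := κ₃ * (Q * ℓ) with ht
  have htn : 0 ≤ t := by positivity
  have hsub : {V | (∀ x ∈ B, ∀ y ∈ B, gr V (box 0 N) E x y ≠ 0) ∧
      ¬ ∀ x ∈ B, ∀ u ∈ B, ∀ y ∈ B,
        DL (box 0 N) E V x y ≤ DL (box 0 N) E V x u + DL (box 0 N) E V u y + t} ⊆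
      ⋃ q ∈ B ×ˢ (B ×ˢ B), {V | Real.exp t * |gr V (box 0 N) E q.1 q.2.2| <
        |gr V (box 0 N) E q.1 q.2.1| * |gr V (box 0 N) E q.2.1 q.2.2|} := by
    rintro V ⟨hne, hV⟩
    simp only [not_forall, not_le] at hV
    obtain ⟨x, hx, u, hu, y, hy, h⟩ := hV
    simp only [Set.mem_iUnion]
    refine ⟨(x, u, y), ?_, ?_⟩
    · rw [Finset.mem_product, Finset.mem_product]
      exact ⟨hx, hu, hy⟩
    · have a1 : 0 < |gr V (box 0 N) E x y| := abs_pos.2 (hne x hx y hy)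
      have a2 : 0 < |gr V (box 0 N) E x u| := abs_pos.2 (hne x hx u hu)
      have a3 : 0 < |gr V (box 0 N) E u y| := abs_pos.2 (hne u hu y hy)
      change Real.exp t * |gr V (box 0 N) E x y| <
        |gr V (box 0 N) E x u| * |gr V (box 0 N) E u y|
      rw [← Real.log_lt_log_iff (by positivity) (by positivity),
        Real.log_mul (Real.exp_pos _).ne' a1.ne', Real.log_mul a2.ne' a3.ne', Real.log_exp]
      unfold DL at h
      linarith
  refine (measure_mono hsub).trans ((measure_biUnion_finset_le _ _).trans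
    ((Finset.sum_le_sum (g := fun _ => ENNReal.ofReal (|C| * Real.exp (-t / 3)))
      fun q hq => ?_).trans ?_))
  · rw [Finset.mem_product, Finset.mem_product] at hq
    refine (PP_le_PL (Λ := box 0 N) ?_).trans ((hC (box 0 N) q.1 q.2.1 q.2.2 t (hbox hq.1)
      (hbox hq.2.1) (hbox hq.2.2) htn).trans ?_)
    · intro V V' hV
      simp only [Set.mem_ofPred_eq]
      rw [gr_congr hV, gr_congr hV, gr_congr hV]
    · exact ENNReal.ofReal_le_ofReal (mul_le_mul_of_nonneg_right (le_abs_self C) (by positivity))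
  · rw [Finset.sum_const, nsmul_eq_mul, ← ENNReal.ofReal_natCast,
      ← ENNReal.ofReal_mul (by positivity)]
    apply ENNReal.ofReal_le_ofReal
    rw [Finset.card_product, Finset.card_product]
    have hb : ((B.card : ℕ) : ℝ) ≤ (25 * ((Q * ℓ : ℕ) : ℝ)) ^ d := card_box_le a hn
    have hb0 : (0 : ℝ) ≤ ((B.card : ℕ) : ℝ) := by positivity
    have h2 := hL₀ (Q * ℓ) hQ
    have e : -(κ₃ / 3 * ((Q * ℓ : ℕ) : ℝ)) = -t / 3 := by
      rw [ht]; push_cast; ring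
    rw [e] at h2
    calc (((B.card * (B.card * B.card) : ℕ)) : ℝ) * (|C| * Real.exp (-t / 3))
        ≤ ((25 * ((Q * ℓ : ℕ) : ℝ)) ^ d * ((25 * ((Q * ℓ : ℕ) : ℝ)) ^ d *
          (25 * ((Q * ℓ : ℕ) : ℝ)) ^ d)) * (|C| * Real.exp (-t / 3)) := by
          apply mul_le_mul_of_nonneg_right _ (by positivity)
          push_cast at hb ⊢
          gcongr
      _ = |C| * (25 * ((Q * ℓ : ℕ) : ℝ)) ^ (3 * d) * Real.exp (-t / 3) := by
          rw [show 3 * d = d + (d + d) by ring, pow_add, pow_add]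
          ring
      _ ≤ p := h2

/-- clause 2, the upper bound -/
theorem gev_up (d : ℕ) (σ E κ₃ p ρ : ℝ) (hκ : 0 < κ₃) (hp : 0 < p) [IsProbabilityMeasure (gl σ)]
    (hν : BddDens (gl σ) ρ) :
    ∃ L₀ : ℕ, 1 ≤ L₀ ∧ ∀ Q ℓ : ℕ, L₀ ≤ Q * ℓ → ∀ (N : ℕ) (a : Site d),
      PP d (gl σ) {V | ¬ ∀ x ∈ box a (12 * (Q * ℓ)), ∀ y ∈ box a (12 * (Q * ℓ)),
          |gr V (box 0 N) E x y| ≤ Real.exp (κ₃ * (Q * ℓ))} ≤ ENNReal.ofReal p := by
  classical
  obtain ⟨L₀, h1, hL₀⟩ := poly_exp (6 * ρ) κ₃ p (2 * d) hκ hp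
  refine ⟨L₀, h1, fun Q ℓ hQ N a => ?_⟩
  have hn : 1 ≤ Q * ℓ := h1.trans hQ
  set B := box a (12 * (Q * ℓ)) with hB
  set t : ℝ := κ₃ * (Q * ℓ) with ht
  have hsub : {V | ¬ ∀ x ∈ B, ∀ y ∈ B, |gr V (box 0 N) E x y| ≤ Real.exp t} ⊆
      ⋃ q ∈ B ×ˢ B, {V | Real.exp t < |gr V (box 0 N) E q.1 q.2|} := by
    intro V hV
    simp only [Set.mem_ofPred_eq, not_forall, not_le] at hV
    obtain ⟨x, hx, y, hy, h⟩ := hV
    simp only [Set.mem_iUnion]
    exact ⟨(x, y), Finset.mem_product.2 ⟨hx, hy⟩, h⟩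
  refine (measure_mono hsub).trans ((measure_biUnion_finset_le _ _).trans
    ((Finset.sum_le_sum (g := fun _ => ENNReal.ofReal (|6 * ρ| * Real.exp (-t)))
      fun q hq => ?_).trans ?_))
  · refine (PP_le_PL (Λ := box 0 N) ?_).trans ((PL_weak hν (box 0 N) E q.1 q.2
      (Real.exp_pos t)).trans ?_)
    · intro V V' hV
      simp only [Set.mem_ofPred_eq]
      rw [gr_congr hV]
    · apply ENNReal.ofReal_le_ofReal
      rw [Real.exp_neg, ← div_eq_mul_inv]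
      exact div_le_div_of_nonneg_right (le_abs_self _) (Real.exp_pos _).le
  · rw [Finset.sum_const, nsmul_eq_mul, ← ENNReal.ofReal_natCast,
      ← ENNReal.ofReal_mul (by positivity)]
    apply ENNReal.ofReal_le_ofReal
    rw [Finset.card_product]
    have hb : ((B.card : ℕ) : ℝ) ≤ (25 * ((Q * ℓ : ℕ) : ℝ)) ^ d := card_box_le a hn
    have h2 := hL₀ (Q * ℓ) hQ
    have e : -(κ₃ * ((Q * ℓ : ℕ) : ℝ)) = -t := by
      rw [ht]; push_cast; ring
    rw [e] at h2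
    calc (((B.card * B.card : ℕ)) : ℝ) * (|6 * ρ| * Real.exp (-t))
        ≤ ((25 * ((Q * ℓ : ℕ) : ℝ)) ^ d *
          (25 * ((Q * ℓ : ℕ) : ℝ)) ^ d) * (|6 * ρ| * Real.exp (-t)) := by
          apply mul_le_mul_of_nonneg_right _ (by positivity)
          push_cast at hb ⊢
          gcongr
      _ = |6 * ρ| * (25 * ((Q * ℓ : ℕ) : ℝ)) ^ (2 * d) * Real.exp (-t) := by
          rw [show 2 * d = d + d by ring, pow_add]
          ring
      _ ≤ p := h2

/-- clause 1 -/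
theorem gev_det (d : ℕ) (σ E ρ : ℝ) [IsProbabilityMeasure (gl σ)] (hν : BddDens (gl σ) ρ)
    (Λ : Finset (Site d)) : PP d (gl σ) {V | ¬ (RM V Λ E).det ≠ 0} = 0 := by
  have h : {V : Site d → ℝ | ¬ (RM V Λ E).det ≠ 0} = {V | (RM V Λ E).det = 0} := by
    ext V
    simp
  rw [h]
  refine le_antisymm ((PP_le_PL (Λ := Λ) ?_).trans (PL_det hν Λ Λ le_rfl E).le) bot_le
  intro V V' hV
  simp only [Set.mem_ofPred_eq]
  rw [RM_congr hV]

/-- clause 6 -/
theorem gev_small (d : ℕ) (σ E κ₃ p ρ : ℝ) (hκ : 0 < κ₃) (hp : 0 < p)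
    [IsProbabilityMeasure (gl σ)] (hν : BddDens (gl σ) ρ) :
    ∃ L₀ : ℕ, 1 ≤ L₀ ∧ ∀ Q ℓ : ℕ, L₀ ≤ Q * ℓ → ∀ (a : Site d),
      PP d (gl σ) {V | ¬ ∀ s ∈ box a (8 * (Q * ℓ)), (RM V (box s (Q * ℓ)) E).det ≠ 0 ∧
        ∀ x y, |gr V (box s (Q * ℓ)) E x y| ≤ Real.exp (κ₃ * (Q * ℓ))} ≤ ENNReal.ofReal p := by
  classical
  obtain ⟨L₀, h1, hL₀⟩ := poly_exp (6 * ρ) κ₃ p (3 * d) hκ hp
  refine ⟨L₀, h1, fun Q ℓ hQ a => ?_⟩
  have hn : 1 ≤ Q * ℓ := h1.trans hQ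
  set S := box a (8 * (Q * ℓ)) with hS
  set t : ℝ := κ₃ * (Q * ℓ) with ht
  have hsub : {V | ¬ ∀ s ∈ S, (RM V (box s (Q * ℓ)) E).det ≠ 0 ∧
        ∀ x y, |gr V (box s (Q * ℓ)) E x y| ≤ Real.exp t} ⊆
      (⋃ s ∈ S, {V | ¬ (RM V (box s (Q * ℓ)) E).det ≠ 0}) ∪
      ⋃ s ∈ S, ⋃ q ∈ box s (Q * ℓ) ×ˢ box s (Q * ℓ),
        {V | Real.exp t < |gr V (box s (Q * ℓ)) E q.1 q.2|} := by
    intro V hV
    simp only [Set.mem_ofPred_eq, not_forall, not_and_or] at hV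
    obtain ⟨s, hs, h⟩ := hV
    by_cases hdet : (RM V (box s (Q * ℓ)) E).det ≠ 0
    · right
      rcases h with h | h
      · exact absurd hdet h
      · obtain ⟨x, y, hxy⟩ := h
        simp only [Set.mem_iUnion]
        refine ⟨s, hs, (x, y), ?_, not_le.1 hxy⟩
        by_contra hc
        have h0 : gr V (box s (Q * ℓ)) E x y = 0 := by
          unfold gr
          rw [dif_neg]
          rintro ⟨hx, hy⟩
          exact hc (Finset.mem_product.2 ⟨hx, hy⟩)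
        rw [h0, abs_zero] at hxy
        exact hxy (Real.exp_pos _).le
    · left
      simp only [Set.mem_iUnion]
      exact ⟨s, hs, hdet⟩
  refine (measure_mono hsub).trans ((measure_union_le _ _).trans ?_)
  have z : PP d (gl σ) (⋃ s ∈ S, {V | ¬ (RM V (box s (Q * ℓ)) E).det ≠ 0}) = 0 :=
    le_antisymm ((measure_biUnion_finset_le _ _).trans (by
      rw [Finset.sum_eq_zero]
      intro s _
      exact gev_det d σ E ρ hν (box s (Q * ℓ)))) bot_le
  rw [z, zero_add]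
  have hcs : ∀ s : Site d, (((box s (Q * ℓ)).card : ℕ) : ℝ) ≤ (25 * ((Q * ℓ : ℕ) : ℝ)) ^ d := by
    intro s
    refine le_trans ?_ (card_box_le s hn)
    exact_mod_cast Finset.card_le_card (box_mono s (by omega))
  refine (measure_biUnion_finset_le _ _).trans ((Finset.sum_le_sum
    (g := fun _ => ENNReal.ofReal ((25 * ((Q * ℓ : ℕ) : ℝ)) ^ (2 * d) *
      (|6 * ρ| * Real.exp (-t)))) fun s hs => ?_).trans ?_)
  · refine (measure_biUnion_finset_le _ _).trans ((Finset.sum_le_sum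
      (g := fun _ => ENNReal.ofReal (|6 * ρ| * Real.exp (-t))) fun q hq => ?_).trans ?_)
    · refine (PP_le_PL (Λ := box s (Q * ℓ)) ?_).trans ((PL_weak hν (box s (Q * ℓ)) E q.1 q.2
        (Real.exp_pos t)).trans ?_)
      · intro V V' hV
        simp only [Set.mem_ofPred_eq]
        rw [gr_congr hV]
      · apply ENNReal.ofReal_le_ofReal
        rw [Real.exp_neg, ← div_eq_mul_inv]
        exact div_le_div_of_nonneg_right (le_abs_self _) (Real.exp_pos _).le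
    · rw [Finset.sum_const, nsmul_eq_mul, ← ENNReal.ofReal_natCast,
        ← ENNReal.ofReal_mul (by positivity)]
      apply ENNReal.ofReal_le_ofReal
      apply mul_le_mul_of_nonneg_right _ (by positivity)
      rw [Finset.card_product, show 2 * d = d + d by ring, pow_add]
      have hb := hcs s
      push_cast at hb ⊢
      gcongr
  · rw [Finset.sum_const, nsmul_eq_mul, ← ENNReal.ofReal_natCast,
      ← ENNReal.ofReal_mul (by positivity)]
    apply ENNReal.ofReal_le_ofReal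
    have hb : ((S.card : ℕ) : ℝ) ≤ (25 * ((Q * ℓ : ℕ) : ℝ)) ^ d := by
      refine le_trans ?_ (card_box_le a hn)
      exact_mod_cast Finset.card_le_card (box_mono a (by omega))
    have h2 := hL₀ (Q * ℓ) hQ
    have e : -(κ₃ * ((Q * ℓ : ℕ) : ℝ)) = -t := by
      rw [ht]; push_cast; ring
    rw [e] at h2
    calc ((S.card : ℕ) : ℝ) * ((25 * ((Q * ℓ : ℕ) : ℝ)) ^ (2 * d) *
          (|6 * ρ| * Real.exp (-t)))
        ≤ (25 * ((Q * ℓ : ℕ) : ℝ)) ^ d * ((25 * ((Q * ℓ : ℕ) : ℝ)) ^ (2 * d) *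
          (|6 * ρ| * Real.exp (-t))) := mul_le_mul_of_nonneg_right hb (by positivity)
      _ = |6 * ρ| * (25 * ((Q * ℓ : ℕ) : ℝ)) ^ (3 * d) * Real.exp (-t) := by
          rw [show 3 * d = d + 2 * d by ring, pow_add]
          ring
      _ ≤ p := h2

end Pool.Agent.LE.H28A
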