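import Pool.Agent.LE.StmtsR
import Pool.Agent.Helper48_Loc.Apriori2

/-!
# MES: measurability of the Lyapunov exponent
-/

set_option autoImplicit false

open MeasureTheory ProbabilityTheory Function Filter

open scoped ENNReal BigOperators Topology

noncomputable section

namespace Pool.Agent.LE.H28R

open Pool.Agent.Anderson Pool.Agent.Loc Pool.Agent.Mob Pool.Agent.Helper54.Bal Pool.Agent.LE

variable {d : ℕ}

theorem cont_RM2 (Λ : Finset (Site d)) :
    Continuous fun p : ℝ × (Site d → ℝ) => RM p.2 Λ p.1 := by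
  refine continuous_matrix fun x y => ?_
  simp only [RM, HM, Matrix.sub_apply, Matrix.smul_apply, Matrix.of_apply, smul_eq_mul]
  by_cases h : x = y
  · simp only [h, if_true]
    fun_prop
  · simp only [h, if_false]
    fun_prop

theorem meas_gr2 (Λ : Finset (Site d)) (x y : Site d) :
    Measurable fun p : ℝ × (Site d → ℝ) => gr p.2 Λ p.1 x y := by
  by_cases h : x ∈ Λ ∧ y ∈ Λ
  · simp_rw [gr_eq_adj h.1 h.2]
    apply Measurable.mul
    · exact (cont_RM2 Λ).matrix_det.measurable.inv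
    · have h1 : Continuous fun p : ℝ × (Site d → ℝ) => (RM p.2 Λ p.1).adjugate :=
        (cont_RM2 Λ).matrix_adjugate
      exact (h1.matrix_elem _ _).measurable
  · have : (fun p : ℝ × (Site d → ℝ) => gr p.2 Λ p.1 x y) = fun _ => 0 := by
      funext p
      unfold gr
      rw [dif_neg h]
    rw [this]
    exact measurable_const

theorem meas_SG2 (L : ℕ) (m : ℝ) (v : Site d) :
    MeasurableSet {p : ℝ × (Site d → ℝ) | SG p.2 L m p.1 v} := by
  have e : {p : ℝ × (Site d → ℝ) | SG p.2 L m p.1 v} =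
      {p : ℝ × (Site d → ℝ) | (RM p.2 (box v L) p.1).det = 0}ᶜ ∩
        ⋂ u : Site d, ⋂ _ : sd v u = L,
          {p : ℝ × (Site d → ℝ) | |gr p.2 (box v L) p.1 v u| ≤ Real.exp (-m * L)} := by
    ext p
    simp only [SG, Set.mem_inter_iff, Set.mem_compl_iff, Set.mem_iInter, Set.mem_ofPred_eq]
  rw [e]
  refine MeasurableSet.inter (MeasurableSet.compl ?_)
    (MeasurableSet.iInter fun u => MeasurableSet.iInter fun _ => ?_)
  · exact measurableSet_eq_fun (cont_RM2 _).matrix_det.measurable measurable_const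
  · exact measurableSet_le (meas_gr2 _ _ _).abs measurable_const

theorem meas_P (σ : ℝ) (L : ℕ) (m : ℝ) :
    Measurable fun E : ℝ => PP d (gl σ) {V | SG V L m E 0} :=
  measurable_measure_prodMk_left (ν := PP d (gl σ)) (meas_SG2 (d := d) L m 0)

theorem SG_mono {V : Site d → ℝ} {L : ℕ} {m m' E : ℝ} {v : Site d} (h : m' ≤ m)
    (hs : SG V L m E v) : SG V L m' E v := by
  refine ⟨hs.1, fun u hu => (hs.2 u hu).trans (Real.exp_le_exp.2 ?_)⟩
  have hL : (0 : ℝ) ≤ L := Nat.cast_nonneg L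
  nlinarith

theorem lt_iff {σ E g c : ℝ} (h : LyaAt d σ E g) : g < c ↔
    ∃ k : ℚ, (k : ℝ) < c ∧ Tendsto (fun L : ℕ => PP d (gl σ) {V | SG V L (k : ℝ) E 0}) atTop
      (𝓝 0) := by
  constructor
  · intro hg
    obtain ⟨k, hk1, hk2⟩ := exists_rat_btwn hg
    refine ⟨k, hk2, ?_⟩
    have h1 := (h.2 ((k : ℝ) - g) (by linarith)).1
    have e : g + ((k : ℝ) - g) = k := by ring
    rw [e] at h1
    exact h1
  · rintro ⟨k, hk, ht⟩
    refine lt_of_le_of_lt ?_ hk
    by_contra hc
    have hc : (k : ℝ) < g := not_le.1 hc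
    have h2 := (h.2 (g - k) (by linarith)).2
    have e : g - (g - (k : ℝ)) = k := by ring
    rw [e] at h2
    have h3 := ht.add h2
    rw [add_zero] at h3
    have h4 : ∀ L : ℕ, (1 : ℝ≥0∞) ≤ PP d (gl σ) {V | SG V L (k : ℝ) E 0} +
        PP d (gl σ) {V | ¬ SG V L (k : ℝ) E 0} := by
      intro L
      have h5 : (Set.univ : Set (Site d → ℝ)) ⊆
          {V | SG V L (k : ℝ) E 0} ∪ {V | ¬ SG V L (k : ℝ) E 0} := by
        intro V _
        exact Classical.em _
      calc (1 : ℝ≥0∞) = PP d (gl σ) Set.univ := measure_univ.symm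
        _ ≤ PP d (gl σ) ({V | SG V L (k : ℝ) E 0} ∪ {V | ¬ SG V L (k : ℝ) E 0}) :=
          measure_mono h5
        _ ≤ _ := measure_union_le _ _
    have h6 : (1 : ℝ≥0∞) ≤ 0 := ge_of_tendsto' h3 h4
    exact absurd h6 (by simp)

theorem mes : MesStmt := by
  intro d σ γ _ _ h c
  have e : {E : ℝ | γ E < c} = ⋃ k : ℚ, ⋃ _ : (k : ℝ) < c,
      {E : ℝ | Tendsto (fun L : ℕ => PP d (gl σ) {V | SG V L (k : ℝ) E 0}) atTop (𝓝 0)} := by
    ext E
    simp only [Set.mem_iUnion, Set.mem_ofPred_eq, exists_prop]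
    exact lt_iff (h E)
  rw [e]
  refine MeasurableSet.iUnion fun k => MeasurableSet.iUnion fun _ => ?_
  exact measurableSet_tendsto (𝓝 0) fun L => meas_P σ L k

end Pool.Agent.LE.H28R
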