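import Pool.Agent.LE.StmtsG

/-!
# NRM: the L² norm with the average over base points
-/

set_option autoImplicit false

open MeasureTheory ProbabilityTheory Function Filter

open scoped ENNReal BigOperators Topology

noncomputable section

namespace Pool.Agent.LE.H28N

open Pool.Agent.Anderson Pool.Agent.Loc Pool.Agent.Mob Pool.Agent.LE

/-! ### averages -/

theorem den_pos (d R : ℕ) : (0 : ℝ) < (2 * (R : ℝ) + 1) ^ d := by positivity

theorem card_box0 (d R : ℕ) : ((box (0 : Site d) R).card : ℝ) = (2 * (R : ℝ) + 1) ^ d := by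
  have h : (box (0 : Site d) R).card = (2 * R + 1) ^ d := by
    unfold box
    rw [Pi.card_Icc]
    simp only [Int.card_Icc, Pi.zero_apply, zero_add, zero_sub, sub_neg_eq_add]
    rw [Finset.prod_const, Finset.card_univ, Fintype.card_fin]
    congr 1
    omega
  rw [h]
  push_cast
  ring

theorem Av_congr {d : ℕ} {R : ℕ} {f g : Site d → ℝ}
    (h : ∀ a ∈ box (0 : Site d) R, f a = g a) : Av R f = Av R g := by
  unfold Av
  rw [Finset.sum_congr rfl h]

theorem Av_mono {d : ℕ} {R : ℕ} {f g : Site d → ℝ}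
    (h : ∀ a ∈ box (0 : Site d) R, f a ≤ g a) : Av R f ≤ Av R g := by
  unfold Av
  exact div_le_div_of_nonneg_right (Finset.sum_le_sum h) (den_pos d R).le

theorem Av_nonneg {d : ℕ} {R : ℕ} {f : Site d → ℝ}
    (h : ∀ a ∈ box (0 : Site d) R, 0 ≤ f a) : 0 ≤ Av R f := by
  unfold Av
  exact div_nonneg (Finset.sum_nonneg h) (den_pos d R).le

theorem Av_add {d : ℕ} {R : ℕ} (f g : Site d → ℝ) :
    Av R (fun a => f a + g a) = Av R f + Av R g := by
  unfold Av
  rw [Finset.sum_add_distrib, add_div]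

theorem Av_sub {d : ℕ} {R : ℕ} (f g : Site d → ℝ) :
    Av R (fun a => f a - g a) = Av R f - Av R g := by
  unfold Av
  rw [Finset.sum_sub_distrib, sub_div]

theorem Av_mul {d : ℕ} {R : ℕ} (c : ℝ) (f : Site d → ℝ) :
    Av R (fun a => c * f a) = c * Av R f := by
  unfold Av
  rw [← Finset.mul_sum, mul_div_assoc]

theorem Av_const {d : ℕ} {R : ℕ} (c : ℝ) : Av R (fun _ : Site d => c) = c := by
  unfold Av
  rw [Finset.sum_const, nsmul_eq_mul, card_box0]
  field_simp

/-! ### square integrable functions -/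

section one

variable {Ω : Type} [MeasurableSpace Ω] {P : Measure Ω}

theorem int_mul {f g : Ω → ℝ} (hf : Measurable f) (hg : Measurable g)
    (hf2 : Integrable (fun ω => f ω ^ 2) P) (hg2 : Integrable (fun ω => g ω ^ 2) P) :
    Integrable (fun ω => f ω * g ω) P := by
  refine Integrable.mono' (hf2.add hg2) (hf.mul hg).aestronglyMeasurable ?_
  refine Filter.Eventually.of_forall fun ω => ?_
  rw [Real.norm_eq_abs, abs_mul]
  simp only [Pi.add_apply]
  nlinarith [sq_nonneg (|f ω| - |g ω|), sq_abs (f ω), sq_abs (g ω), sq_nonneg (f ω),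
    sq_nonneg (g ω)]

theorem int_add_sq {f g : Ω → ℝ} (hf : Measurable f) (hg : Measurable g)
    (hf2 : Integrable (fun ω => f ω ^ 2) P) (hg2 : Integrable (fun ω => g ω ^ 2) P) (s t : ℝ) :
    Integrable (fun ω => (s * f ω + t * g ω) ^ 2) P ∧
      ∫ ω, (s * f ω + t * g ω) ^ 2 ∂P = s ^ 2 * ∫ ω, f ω ^ 2 ∂P + 2 * s * t * ∫ ω, f ω * g ω ∂P +
        t ^ 2 * ∫ ω, g ω ^ 2 ∂P := by
  have hm := int_mul hf hg hf2 hg2
  have he : (fun ω => (s * f ω + t * g ω) ^ 2) =
      fun ω => s ^ 2 * f ω ^ 2 + 2 * s * t * (f ω * g ω) + t ^ 2 * g ω ^ 2 := by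
    funext ω; ring
  have i1 : Integrable (fun ω => s ^ 2 * f ω ^ 2) P := hf2.const_mul _
  have i2 : Integrable (fun ω => 2 * s * t * (f ω * g ω)) P := hm.const_mul _
  have i3 : Integrable (fun ω => t ^ 2 * g ω ^ 2) P := hg2.const_mul _
  have i12 : Integrable (fun ω => s ^ 2 * f ω ^ 2 + 2 * s * t * (f ω * g ω)) P := i1.add i2
  rw [he]
  refine ⟨i12.add i3, ?_⟩
  rw [integral_add i12 i3, integral_add i1 i2, integral_const_mul, integral_const_mul,
    integral_const_mul]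

theorem int_abs_le [IsProbabilityMeasure P] {f : Ω → ℝ} (hf : Measurable f)
    (hf2 : Integrable (fun ω => f ω ^ 2) P) : (∫ ω, |f ω| ∂P) ^ 2 ≤ ∫ ω, f ω ^ 2 ∂P := by
  have h1 : Integrable (fun ω => |f ω| * 1) P :=
    int_mul hf.abs measurable_const (by simpa using hf2) (by simp)
  have h2 := (int_add_sq (P := P) hf.abs (measurable_const : Measurable fun _ : Ω => (1 : ℝ))
    (by simpa using hf2) (by simp) 1 (-(∫ ω, |f ω| ∂P))).2
  have h3 : 0 ≤ ∫ ω, (1 * |f ω| + -(∫ ω, |f ω| ∂P) * 1) ^ 2 ∂P :=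
    integral_nonneg fun ω => sq_nonneg _
  rw [h2] at h3
  simp only [sq_abs, mul_one, one_pow, integral_const, probReal_univ, smul_eq_mul, one_mul] at h3
  nlinarith [h3]

end one

/-! ### the norm -/

section two

variable {d : ℕ} {Ω : Type} [MeasurableSpace Ω] {P : Measure Ω} {R : ℕ}

theorem nA_nonneg (f : Site d → Ω → ℝ) : 0 ≤ nA P R f := Real.sqrt_nonneg _

theorem nA_sq (f : Site d → Ω → ℝ) : nA P R f ^ 2 = Av R fun a => ∫ ω, f a ω ^ 2 ∂P := by
  unfold nA
  rw [Real.sq_sqrt]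
  exact Av_nonneg fun a _ => integral_nonneg fun ω => sq_nonneg _

theorem adm_lin {f g : Site d → Ω → ℝ} (hf : Adm P R f) (hg : Adm P R g) (s t : ℝ) :
    Adm P R (fun a ω => s * f a ω + t * g a ω) := by
  intro a ha
  obtain ⟨f1, f2⟩ := hf a ha
  obtain ⟨g1, g2⟩ := hg a ha
  exact ⟨(f1.const_mul s).add (g1.const_mul t), (int_add_sq f1 g1 f2 g2 s t).1⟩

/-- the mixed term -/
def mx (P : Measure Ω) (R : ℕ) (f g : Site d → Ω → ℝ) : ℝ := Av R fun a => ∫ ω, f a ω * g a ω ∂P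

theorem nA_lin {f g : Site d → Ω → ℝ} (hf : Adm P R f) (hg : Adm P R g) (s t : ℝ) :
    nA P R (fun a ω => s * f a ω + t * g a ω) ^ 2 =
      s ^ 2 * nA P R f ^ 2 + 2 * s * t * mx P R f g + t ^ 2 * nA P R g ^ 2 := by
  rw [nA_sq, nA_sq, nA_sq, mx, ← Av_mul, ← Av_mul, ← Av_mul, ← Av_add, ← Av_add]
  refine Av_congr fun a ha => ?_
  obtain ⟨f1, f2⟩ := hf a ha
  obtain ⟨g1, g2⟩ := hg a ha
  exact (int_add_sq f1 g1 f2 g2 s t).2

theorem cs {f g : Site d → Ω → ℝ} (hf : Adm P R f) (hg : Adm P R g) :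
    mx P R f g ≤ nA P R f * nA P R g := by
  have hA := nA_nonneg (P := P) (R := R) f
  have hB := nA_nonneg (P := P) (R := R) g
  have key : ∀ s t : ℝ, 0 ≤ s ^ 2 * nA P R f ^ 2 + 2 * s * t * mx P R f g +
      t ^ 2 * nA P R g ^ 2 := by
    intro s t
    rw [← nA_lin hf hg s t]
    exact sq_nonneg _
  rcases hA.eq_or_lt with h0 | h0
  · -- norm of f is zero
    by_contra hc
    have hc := not_le.1 hc
    rw [← h0] at hc key
    rw [zero_mul] at hc
    have h1 := key (-(nA P R g ^ 2 + 1)) (mx P R f g)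
    have h2 : 0 < mx P R f g ^ 2 := by positivity
    nlinarith [h1, h2, sq_nonneg (nA P R g)]
  · rcases hB.eq_or_lt with h0' | h0'
    · by_contra hc
      have hc := not_le.1 hc
      rw [← h0'] at hc key
      rw [mul_zero] at hc
      have h1 := key (mx P R f g) (-(nA P R f ^ 2 + 1))
      have h2 : 0 < mx P R f g ^ 2 := by positivity
      nlinarith [h1, h2, sq_nonneg (nA P R f)]
    · have h1 := key (nA P R g) (-(nA P R f))
      have h2 : 2 * (nA P R f * nA P R g) * mx P R f g ≤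
          2 * (nA P R f * nA P R g) * (nA P R f * nA P R g) := by nlinarith [h1]
      exact le_of_mul_le_mul_left h2 (by positivity)

theorem nA_add_le {f g : Site d → Ω → ℝ} (hf : Adm P R f) (hg : Adm P R g) :
    nA P R (fun a ω => f a ω + g a ω) ≤ nA P R f + nA P R g := by
  have h := nA_lin hf hg 1 1
  simp only [one_mul] at h
  have hc := cs hf hg
  refine abs_le_of_sq_le_sq' ?_ (add_nonneg (nA_nonneg _) (nA_nonneg _)) |>.2
  rw [h]
  nlinarith [hc]

theorem nA_mono {f g : Site d → Ω → ℝ} (hg : Adm P R g)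
    (h : ∀ a ∈ box (0 : Site d) R, ∀ ω, |f a ω| ≤ |g a ω|) : nA P R f ≤ nA P R g := by
  unfold nA
  refine Real.sqrt_le_sqrt (Av_mono fun a ha => ?_)
  refine integral_mono_of_nonneg (Filter.Eventually.of_forall fun ω => sq_nonneg _) (hg a ha).2
    (Filter.Eventually.of_forall fun ω => ?_)
  exact sq_le_sq.2 (h a ha ω)

theorem nA_mul (f : Site d → Ω → ℝ) (c : ℝ) :
    nA P R (fun a ω => c * f a ω) = |c| * nA P R f := by
  unfold nA
  have h : (Av R fun a => ∫ ω, (c * f a ω) ^ 2 ∂P) =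
      c ^ 2 * Av R fun a => ∫ ω, f a ω ^ 2 ∂P := by
    rw [← Av_mul]
    refine Av_congr fun a _ => ?_
    rw [← integral_const_mul]
    congr 1
    funext ω
    ring
  rw [h, Real.sqrt_mul (sq_nonneg c), Real.sqrt_sq_eq_abs]

theorem nA_le_of {f : Site d → Ω → ℝ} {B : ℝ} (hB : 0 ≤ B)
    (h : ∀ a ∈ box (0 : Site d) R, ∫ ω, f a ω ^ 2 ∂P ≤ B ^ 2) : nA P R f ≤ B := by
  unfold nA
  rw [Real.sqrt_le_left hB]
  refine (Av_mono h).trans_eq ?_
  exact Av_const _

theorem nA_zero : nA P R (fun (_ : Site d) (_ : Ω) => (0 : ℝ)) = 0 := by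
  have h : nA P R (fun (_ : Site d) (_ : Ω) => (0 : ℝ)) ≤ 0 := by
    refine nA_le_of le_rfl fun a _ => ?_
    simp
  exact le_antisymm h (nA_nonneg _)

theorem adm_zero : Adm P R (fun (_ : Site d) (_ : Ω) => (0 : ℝ)) := by
  intro a _
  refine ⟨measurable_const, ?_⟩
  simp

theorem sum_le (n : ℕ) (f : ℕ → Site d → Ω → ℝ) (B : ℝ) (hf : ∀ i < n, Adm P R (f i))
    (hB : ∀ i < n, nA P R (f i) ≤ B) :
    Adm P R (fun a ω => ∑ i ∈ Finset.range n, f i a ω) ∧
      nA P R (fun a ω => ∑ i ∈ Finset.range n, f i a ω) ≤ n * B := by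
  induction n with
  | zero =>
    simp only [Finset.range_zero, Finset.sum_empty]
    refine ⟨adm_zero, ?_⟩
    rw [nA_zero]
    simp
  | succ n ih =>
    obtain ⟨h1, h2⟩ := ih (fun i hi => hf i (by omega)) (fun i hi => hB i (by omega))
    simp only [Finset.sum_range_succ]
    have h3 := adm_lin h1 (hf n (by omega)) 1 1
    simp only [one_mul] at h3
    refine ⟨h3, (nA_add_le h1 (hf n (by omega))).trans ?_⟩
    have h4 := hB n (by omega)
    push_cast
    linarith

theorem av_abs_le [IsProbabilityMeasure P] {f : Site d → Ω → ℝ} (hf : Adm P R f) :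
    Av R (fun a => ∫ ω, |f a ω| ∂P) ≤ nA P R f := by
  set A : ℝ := Av R (fun a : Site d => ∫ ω, |f a ω| ∂P) with hA
  have hA0 : 0 ≤ A := Av_nonneg fun a _ => integral_nonneg fun ω => abs_nonneg _
  have h1 : 0 ≤ Av R (fun a : Site d => ((∫ ω, |f a ω| ∂P) - A) ^ 2) :=
    Av_nonneg fun a _ => sq_nonneg _
  have h2 : Av R (fun a : Site d => ((∫ ω, |f a ω| ∂P) - A) ^ 2) =
      Av R (fun a : Site d => (∫ ω, |f a ω| ∂P) ^ 2) - A ^ 2 := by
    have e1 : (fun a : Site d => ((∫ ω, |f a ω| ∂P) - A) ^ 2) =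
        fun a : Site d => (∫ ω, |f a ω| ∂P) ^ 2 + (-(2 * A) * (∫ ω, |f a ω| ∂P) + A ^ 2) := by
      funext a; ring
    rw [e1, Av_add, Av_add, Av_mul, Av_const, ← hA]
    ring
  have h3 : Av R (fun a : Site d => (∫ ω, |f a ω| ∂P) ^ 2) ≤ nA P R f ^ 2 := by
    rw [nA_sq]
    exact Av_mono fun a ha => int_abs_le (hf a ha).1 (hf a ha).2
  have h4 : A ^ 2 ≤ nA P R f ^ 2 := by linarith
  exact (abs_le_of_sq_le_sq' h4 (nA_nonneg _)).2

end two

theorem nrm : NrmStmt := by
  intro d Ω _ P _ R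
  refine ⟨fun f g hf hg => ⟨?_, nA_add_le hf hg, ?_⟩, fun f g hg h => nA_mono hg h,
    fun f c => nA_mul f c, fun n f B hf hB => sum_le n f B hf hB,
    fun f B hB h => nA_le_of hB h, fun f hf => av_abs_le hf⟩
  · have h := adm_lin hf hg 1 1
    simpa only [one_mul] using h
  · have h1 := nA_lin hf hg 1 (-1)
    have h2 := nA_lin hf hg (1 / 2) (1 / 2)
    have e1 : (fun (a : Site d) (ω : Ω) => f a ω - g a ω) =
        fun (a : Site d) (ω : Ω) => 1 * f a ω + (-1) * g a ω := by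
      funext a ω; ring
    have e2 : (fun (a : Site d) (ω : Ω) => (f a ω + g a ω) / 2) =
        fun (a : Site d) (ω : Ω) => 1 / 2 * f a ω + 1 / 2 * g a ω := by
      funext a ω; ring
    rw [e1, e2, h1, h2]
    ring

end Pool.Agent.LE.H28N
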