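import Mathlib

/-!
# Pure pigeonhole over scales (row PHO)
-/

set_option autoImplicit false

namespace Pool.Agent.LE.H28

open Finset

/-- one sequence: the `j < n` with a large drop over `q` steps are few. -/
theorem drop_count {B eps : ℝ} (heps : 0 < eps) (q n : ℕ) {H : ℕ → ℝ}
    (hm : ∀ j, j < n + q → H (j + 1) ≤ H j) (hB : ∀ j, j ≤ n + q → |H j| ≤ B) :
    (((range n).filter fun j => eps < H j - H (j + q)).card : ℝ) * eps ≤ 2 * B * q := by
  classical
  have hanti : ∀ i j, i ≤ j → j ≤ n + q → H j ≤ H i := by
    intro i j hij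
    induction j, hij using Nat.le_induction with
    | base => intro _; exact le_refl _
    | succ j hij ih =>
      intro hj
      exact (hm j (by omega)).trans (ih (by omega))
  have h0 : (((range n).filter fun j => eps < H j - H (j + q)).card : ℝ) * eps ≤
      ∑ j ∈ range n, (H j - H (j + q)) := by
    calc (((range n).filter fun j => eps < H j - H (j + q)).card : ℝ) * eps
        = ∑ _j ∈ (range n).filter (fun j => eps < H j - H (j + q)), eps := by
          rw [sum_const, nsmul_eq_mul]
      _ ≤ ∑ j ∈ (range n).filter (fun j => eps < H j - H (j + q)), (H j - H (j + q)) := by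
          apply sum_le_sum
          intro j hj
          exact (mem_filter.1 hj).2.le
      _ ≤ _ := by
          apply sum_le_sum_of_subset_of_nonneg (filter_subset _ _)
          intro j hj _
          have hjn : j < n := mem_range.1 hj
          have := hanti j (j + q) (by omega) (by omega)
          linarith
  have h1 : ∀ m : ℕ, m ≤ n → ∑ j ∈ range m, (H j - H (j + q)) =
      ∑ j ∈ range q, (H j - H (m + j)) := by
    intro m
    induction m with
    | zero => intro _; simp
    | succ m ih =>
      intro hm'
      rw [sum_range_succ, ih (by omega)]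
      have : ∀ k : ℕ, (∑ j ∈ range k, (H j - H (m + j))) + (H m - H (m + k)) =
          ∑ j ∈ range k, (H j - H (m + 1 + j)) := by
        intro k
        induction k with
        | zero => simp
        | succ k ihk =>
          rw [sum_range_succ, sum_range_succ, ← ihk,
            show m + 1 + k = m + (k + 1) by ring]
          ring
      rw [← this q, show m + q = m + q from rfl]
  have h2 : ∑ j ∈ range n, (H j - H (j + q)) ≤ 2 * B * q := by
    rw [h1 n le_rfl]
    calc ∑ j ∈ range q, (H j - H (n + j)) ≤ ∑ _j ∈ range q, 2 * B := by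
          apply sum_le_sum
          intro j hj
          have hj' : j < q := mem_range.1 hj
          have a := abs_le.1 (hB j (by omega))
          have b := abs_le.1 (hB (n + j) (by omega))
          linarith [a.2, b.1]
      _ = 2 * B * q := by rw [sum_const, card_range, nsmul_eq_mul]; ring
  exact h0.trans h2

/-- one sequence: the `j < n` with a large decrement are few. -/
theorem decr_count {B eps : ℝ} (heps : 0 < eps) (n : ℕ) {S v : ℕ → ℝ}
    (hv : ∀ j, j < n → 0 ≤ v j)
    (hm : ∀ j, j < n → S (j + 1) ≤ S j - v j / 4) (hB : ∀ j, j ≤ n → |S j| ≤ B) :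
    (((range n).filter fun j => eps < v j).card : ℝ) * eps ≤ 8 * B := by
  classical
  have h0 : (((range n).filter fun j => eps < v j).card : ℝ) * eps ≤ ∑ j ∈ range n, v j := by
    calc (((range n).filter fun j => eps < v j).card : ℝ) * eps
        = ∑ _j ∈ (range n).filter (fun j => eps < v j), eps := by
          rw [sum_const, nsmul_eq_mul]
      _ ≤ ∑ j ∈ (range n).filter (fun j => eps < v j), v j := by
          apply sum_le_sum
          intro j hj
          exact (mem_filter.1 hj).2.le
      _ ≤ _ := by
          apply sum_le_sum_of_subset_of_nonneg (filter_subset _ _)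
          intro j hj _
          exact hv j (mem_range.1 hj)
  have h1 : ∀ m : ℕ, m ≤ n → ∑ j ∈ range m, v j ≤ 4 * (S 0 - S m) := by
    intro m
    induction m with
    | zero => intro _; simp
    | succ m ih =>
      intro hm'
      rw [sum_range_succ]
      have := ih (by omega)
      have := hm m (by omega)
      linarith
  have h2 := h1 n le_rfl
  have a := abs_le.1 (hB 0 (by omega))
  have b := abs_le.1 (hB n le_rfl)
  linarith [a.2, b.1]

/-- PHO: the pigeonhole over scales. The hypotheses are needed only for the scales up to `J + q`. -/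
theorem pho (B eps : ℝ) (heps : 0 < eps) (N q : ℕ) : ∃ J : ℕ,
    ∀ {ι : Type*} (F : Finset ι), F.card ≤ N → ∀ (h s v : ι → ℕ → ℝ) (e : ℕ → ℝ),
      (∀ j, 0 ≤ e j) → (∑ j ∈ range (J + q + 1), e j ≤ B) →
      (∀ i ∈ F, ∀ j, j ≤ J → 0 ≤ v i j) →
      (∀ i ∈ F, ∀ j, j ≤ J + q → h i (j + 1) ≤ h i j + e j) →
      (∀ i ∈ F, ∀ j, j ≤ J + q + 1 → |h i j| ≤ B) →
      (∀ i ∈ F, ∀ j, j ≤ J → s i (j + 1) ≤ s i j - v i j / 4 + e j) →
      (∀ i ∈ F, ∀ j, j ≤ J + 1 → |s i j| ≤ B) →
      ∃ j, j ≤ J ∧ ∀ i ∈ F, h i j - h i (j + q) ≤ eps ∧ v i j ≤ eps := by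
  classical
  obtain ⟨J, hJ⟩ := exists_nat_gt (N * (4 * B * q + 16 * B) / eps)
  refine ⟨J, ?_⟩
  intro ι F hF h s v e he hesum hv hh hhB hs hsB
  set E : ℕ → ℝ := fun j => ∑ k ∈ range j, e k with hE
  have hEnn : ∀ j, 0 ≤ E j := fun j => sum_nonneg fun k _ => he k
  have hEmono : ∀ i j, i ≤ j → E i ≤ E j := by
    intro i j hij
    exact sum_le_sum_of_subset_of_nonneg (range_subset_range.2 hij) fun k _ _ => he k
  have hEB : ∀ j, j ≤ J + q + 1 → E j ≤ B := fun j hj => (hEmono _ _ hj).trans hesum
  have hB0 : 0 ≤ B := (hEnn 0).trans (hEB 0 (by omega))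
  have hEs : ∀ j, E (j + 1) = E j + e j := fun j => sum_range_succ _ _
  -- the bad scales of one member of the family
  have key : ∀ i ∈ F, (((range (J + 1)).filter fun j =>
      ¬ (h i j - h i (j + q) ≤ eps ∧ v i j ≤ eps)).card : ℝ) * eps ≤ 4 * B * q + 16 * B := by
    intro i hi
    have k1 := drop_count (B := 2 * B) heps q (J + 1) (H := fun j => h i j - E j)
      (fun j hj => by
        have := hh i hi j (by omega)
        simp only [hEs]
        linarith)
      (fun j hj => by
        have a := abs_le.1 (hhB i hi j (by omega))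
        have b := hEnn j
        have c := hEB j (by omega)
        rw [abs_le]
        constructor <;> linarith [a.1, a.2])
    have k2 := decr_count (B := 2 * B) heps (J + 1) (S := fun j => s i j - E j) (v := v i)
      (fun j hj => hv i hi j (by omega))
      (fun j hj => by
        have := hs i hi j (by omega)
        simp only [hEs]
        linarith)
      (fun j hj => by
        have a := abs_le.1 (hsB i hi j (by omega))
        have b := hEnn j
        have c := hEB j (by omega)
        rw [abs_le]
        constructor <;> linarith [a.1, a.2])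
    have k3 : ((range (J + 1)).filter fun j =>
        ¬ (h i j - h i (j + q) ≤ eps ∧ v i j ≤ eps)) ⊆
        ((range (J + 1)).filter fun j => eps < (h i j - E j) - (h i (j + q) - E (j + q))) ∪
        ((range (J + 1)).filter fun j => eps < v i j) := by
      intro j hj
      rw [mem_filter] at hj
      rw [mem_union, mem_filter, mem_filter]
      by_cases hvj : eps < v i j
      · exact Or.inr ⟨hj.1, hvj⟩
      · left
        refine ⟨hj.1, ?_⟩
        have h1 : ¬ (h i j - h i (j + q) ≤ eps) := fun h1 => hj.2 ⟨h1, not_lt.1 hvj⟩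
        have h2 := hEmono j (j + q) (by omega)
        push_neg at h1
        linarith
    have k4 : (((range (J + 1)).filter fun j =>
        ¬ (h i j - h i (j + q) ≤ eps ∧ v i j ≤ eps)).card : ℝ) ≤
        (((range (J + 1)).filter fun j =>
          eps < (h i j - E j) - (h i (j + q) - E (j + q))).card : ℝ) +
        (((range (J + 1)).filter fun j => eps < v i j).card : ℝ) := by
      exact_mod_cast (card_le_card k3).trans (card_union_le _ _)
    have k5 := mul_le_mul_of_nonneg_right k4 heps.le
    rw [add_mul] at k5
    have k1' : (((range (J + 1)).filter fun j =>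
          eps < (h i j - E j) - (h i (j + q) - E (j + q))).card : ℝ) * eps ≤ 2 * (2 * B) * q := k1
    linarith
  by_contra hcon
  push_neg at hcon
  have hsub : range (J + 1) ⊆ F.biUnion fun i => (range (J + 1)).filter fun j =>
      ¬ (h i j - h i (j + q) ≤ eps ∧ v i j ≤ eps) := by
    intro j hj
    rw [mem_biUnion]
    obtain ⟨i, hi, hi2⟩ := hcon j (by have := mem_range.1 hj; omega)
    refine ⟨i, hi, ?_⟩
    rw [mem_filter]
    refine ⟨hj, fun hc => ?_⟩
    exact absurd hc.2 (not_le.2 (hi2 hc.1))
  have hcard : ((J + 1 : ℕ) : ℝ) ≤ ∑ i ∈ F, (((range (J + 1)).filter fun j =>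
      ¬ (h i j - h i (j + q) ≤ eps ∧ v i j ≤ eps)).card : ℝ) := by
    have h1 := (card_le_card hsub).trans card_biUnion_le
    rw [card_range] at h1
    exact_mod_cast h1
  have hfin : ((J + 1 : ℕ) : ℝ) * eps ≤ N * (4 * B * q + 16 * B) := by
    calc ((J + 1 : ℕ) : ℝ) * eps ≤ (∑ i ∈ F, (((range (J + 1)).filter fun j =>
          ¬ (h i j - h i (j + q) ≤ eps ∧ v i j ≤ eps)).card : ℝ)) * eps :=
          mul_le_mul_of_nonneg_right hcard heps.le
      _ = ∑ i ∈ F, (((range (J + 1)).filter fun j =>
          ¬ (h i j - h i (j + q) ≤ eps ∧ v i j ≤ eps)).card : ℝ) * eps := by rw [sum_mul]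
      _ ≤ ∑ _i ∈ F, (4 * B * q + 16 * B) := sum_le_sum key
      _ = F.card * (4 * B * q + 16 * B) := by rw [sum_const, nsmul_eq_mul]
      _ ≤ N * (4 * B * q + 16 * B) := by
          apply mul_le_mul_of_nonneg_right (by exact_mod_cast hF)
          positivity
  rw [div_lt_iff₀ heps] at hJ
  have : ((J + 1 : ℕ) : ℝ) = (J : ℝ) + 1 := by push_cast; ring
  rw [this] at hfin
  nlinarith

end Pool.Agent.LE.H28
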