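import Pool.Agent.LE.StmtsA
import Pool.Agent.Helper28_LE.Pho

/-!
# PHO in the form of `StmtsA`
-/

set_option autoImplicit false

namespace Pool.Agent.LE.H28A

theorem pho : PhoStmt := by
  intro B ε N q _ hε
  obtain ⟨J, hJ⟩ := Pool.Agent.LE.H28.pho B ε hε N q
  refine ⟨J, fun ι F hF h s v e hh hhB hs hsB hv he hsum => ?_⟩
  obtain ⟨j, hj, hj2⟩ := hJ F hF h s v e he (hsum _) (fun i hi j _ => hv i hi j)
    (fun i hi j _ => hh i hi j) (fun i hi j _ => hhB i hi j) (fun i hi j _ => hs i hi j)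
    (fun i hi j _ => hsB i hi j)
  exact ⟨j, hj, hj2⟩

end Pool.Agent.LE.H28A
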